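import Pool.Agent.H51.K4.Stg
import Pool.Agent.H88.L1.Lcb
import Pool.Agent.H71.L1.Wr

/-!
# [H51 K4 FIN] `LowerBound` v6

`lcb`, `wlc`: the two hypotheses of `stg0`. `stg`: the theorem.
-/

set_option autoImplicit false

noncomputable section

namespace H51.K4

open H38.ML.Spec H88.LB

theorem lcb : LCB := fun p hp G _ _ L h N hN c hL hpw =>
  H88.L1.lc_base1 H51.OW.apm4x (fun _ hp => H35.UY.apu3u hp) H51.SN.stpf hp h N hN c hL hpw

theorem wlc : WLC := fun hm hk e G₁ H hH G hG C₁ hC₁ h =>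
  H71.L1.wr_lcc hm hk e G₁ H hH G hG C₁ hC₁ h

theorem stg (n : ℕ) (hn : 2 ≤ n) (G : Subgroup (Equiv.Perm (Fin n)))
    (hG : MulAction.IsPretransitive G (Fin n)) :
    (Part G (Lst G) ∧ ∀ K : IntermediateField ℚ (AlgebraicClosure ℚ),
      betaC K G (Lst G) = betaAll K (AlgebraicClosure ℚ) G) ∧
    (∀ C : Set G, Part G C →
      (Group.IsSolvable (Subgroup.closure C) →
        (∀ q : ℕ, q.Prime → q ∣ Nat.card (Subgroup.closure C) → ¬ q ^ 3 ∣ Nat.card G) → LowC G C) ∧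
      ((∃ j : ℕ, Subgroup.closure C ≤ Subgroup.upperCentralSeries G j) → LowC G C) ∧
      (∀ p : ℕ, p.Prime → ∀ (N : Subgroup G) (_ : N.Normal), HypN p C N → LowC G C) ∧
      ((∀ x ∈ ⁅Subgroup.closure C, Subgroup.closure C⁆, ∀ y ∈ ⁅Subgroup.closure C, Subgroup.closure C⁆,
          x * y = y * x) →
        Nat.Coprime (Nat.card (⁅Subgroup.closure C, Subgroup.closure C⁆ : Subgroup G))
          (Subgroup.centralizer ((⁅Subgroup.closure C, Subgroup.closure C⁆ : Subgroup G) : Set G)).index →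
        (∀ x ∈ C, x ∈ ⁅Subgroup.closure C, Subgroup.closure C⁆ ∨
          Nat.Coprime (orderOf x) (Nat.card (⁅Subgroup.closure C, Subgroup.closure C⁆ : Subgroup G))) →
        LowC G C) ∧
      (MC C → LowC G C) ∧
      (∀ p : ℕ, p.Prime → (∀ x ∈ C, x ^ p = 1) →
        Group.IsSolvable (Subgroup.closure C) →
        (∀ Q : Subgroup G, Q ≤ Subgroup.closure C → IsPGroup p Q → IsMulCommutative Q) →
        (∀ q : ℕ, q.Prime →
          q ∣ Nat.card (⁅Subgroup.closure C, Subgroup.closure C⁆ : Subgroup G) →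
          ∀ Q : Subgroup G, IsPGroup q Q → IsMulCommutative Q) → LowC G C) ∧
      ((∃ j : ℕ, Subgroup.closure C ⊓ (⊤ : Subgroup G).lowerCentralSeries j = ⊥) →
        ∃ m : ℕ, 0 < m ∧ ∀ K : IntermediateField ℚ (AlgebraicClosure ℚ), ∀ _ : NumberField K,
          (∃ z : K, IsPrimitiveRoot z m) → IsGaloisGroup K (AlgebraicClosure ℚ) G → LowKC K G C)) ∧
    (∀ (m k : ℕ) (_ : 2 ≤ m) (_ : 0 < k) (e : Fin m × Fin k ≃ Fin n)
      (G₁ : Subgroup (Equiv.Perm (Fin m))) (_ : MulAction.IsPretransitive G₁ (Fin m))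
      (H : Subgroup (Equiv.Perm (Fin k))) (_ : MulAction.IsPretransitive H (Fin k))
      (_ : IsWreath e G₁ H G),
      wrC e G₁ (Lst G₁) G = Lst G ∧
      ∀ C₁ : Set G₁, Part G₁ C₁ →
        ((∃ j : ℕ, Subgroup.closure C₁ ≤ Subgroup.upperCentralSeries G₁ j) ∨
          ∃ p : ℕ, p.Prime ∧ ((∃ (N : Subgroup G₁) (_ : N.Normal), HypN p C₁ N) ∨
            (∀ x ∈ C₁, x ^ p = 1) ∧ SC p (Subgroup.closure C₁) C₁)) →
        Part G (wrC e G₁ C₁ G) ∧ LowC G (wrC e G₁ C₁ G)) :=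
  stg0 lcb wlc n hn G hG

end H51.K4
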