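import Pool.Agent.H51.K4.Mc
import Pool.Agent.H51.K3.Hyp
import Pool.Agent.H51.K3.Met

/-!
# [H51 K4 HYP] hypercentral `⟨C⟩ N / N`, `N` abelian and normal of order prime to `p` and to `|G / C_G(N)|`

* `lc_hyp`: `⟨L⟩ ≤ Z_k(G)`: the pair `(G, L)` is in `LC p`.
* `hypn_mc`: `C` of exponent `p`, `⟨C⟩ N / N ≤ Z_k(G / N)`: the pair `(G, C)` is in `MC` (`Sup` for `⟨C⟩ ∩ N` and the normaliser of a complement).
-/

set_option autoImplicit false

open scoped Classical commutatorElement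

noncomputable section

namespace H51.K4

open H51.HD

theorem lc_hyp {G : Type} [Group G] [Finite G] (L : Set G) (hcc : ∀ x ∈ L, ∀ g : G, g * x * g⁻¹ ∈ L) {p : ℕ}
    (hp : p.Prime) (hL : ∀ x ∈ L, x ^ p = 1) (k : ℕ)
    (hk : Subgroup.closure L ≤ Subgroup.upperCentralSeries G k) : LC p L := by
  have hP := H51.K3.tz_pgroupc L k hk hp hL
  obtain ⟨D, hD⟩ : ∃ D : Subgroup G, D = Subgroup.closure L := ⟨_, rfl⟩
  rw [← hD] at hP hk
  have hDn : D.Normal := by rw [hD]; exact H51.K3.clo_normal L hcc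
  have hLD : ∀ y ∈ L, y ∈ D := fun y hy => by
    rw [hD]
    exact Subgroup.subset_closure hy
  have hnor : (Subgroup.normalizer (D : Set G) : Subgroup G) = ⊤ := Subgroup.normalizer_eq_top D
  refine ⟨D, ?_, fun y hy => ⟨1, ?_⟩, ?_, ?_, ?_⟩
  · rw [hD]
    congr 1
    ext y
    exact ⟨fun hy => ⟨hy, Subgroup.subset_closure hy⟩, fun hy => hy.1⟩
  · rw [one_mul, inv_one, mul_one]
    exact hLD y hy
  · intro g hg
    rw [hnor] at hg
    exact absurd (Subgroup.mem_top g) hg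
  · intro y _ hy
    have h1 : {z : G | ∃ g : G, g ∉ (Subgroup.normalizer (D : Set G) : Subgroup G) ∧
        ∃ y ∈ D, z = g * y * g⁻¹} = ∅ := by
      ext z
      constructor
      · rintro ⟨g, hg, -⟩
        rw [hnor] at hg
        exact absurd (Subgroup.mem_top g) hg
      · exact fun h => absurd h (Set.notMem_empty z)
    rw [h1, Subgroup.closure_empty] at hy
    exact Subgroup.mem_bot.1 hy
  · refine SC.base _ _ k (fun y hy => ?_) ?_
    · exact ucs_sub _ k y (hk (Subgroup.mem_subgroupOf.1 hy))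
    · rintro ⟨⟨y, hy1⟩, hy2⟩
      obtain ⟨j, hj⟩ := hP ⟨y, Subgroup.mem_subgroupOf.1 hy2⟩
      have hj' : y ^ p ^ j = 1 := congrArg Subtype.val hj
      refine ⟨j, Subtype.ext (Subtype.ext ?_)⟩
      rw [Subgroup.coe_pow, Subgroup.coe_pow]
      exact hj'

theorem hypn_mc {G : Type} [Group G] [Finite G] (C : Set G) (hcc : ∀ x ∈ C, ∀ g : G, g * x * g⁻¹ ∈ C) {p : ℕ}
    (hp : p.Prime) (hL : ∀ x ∈ C, x ^ p = 1) (N : Subgroup G) [N.Normal] (hN : ∀ x ∈ N, ∀ y ∈ N, x * y = y * x)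
    (hco : Nat.Coprime (Nat.card N) (p * (Subgroup.centralizer (N : Set G)).index)) (k : ℕ)
    (hk : ∀ x ∈ Subgroup.closure C, (x : G ⧸ N) ∈ Subgroup.upperCentralSeries (G ⧸ N) k) : MC C := by
  obtain ⟨T, hT⟩ : ∃ T : Subgroup G, T = Subgroup.closure C := ⟨_, rfl⟩
  have hTn : T.Normal := by rw [hT]; exact H51.K3.clo_normal C hcc
  rw [← hT] at hk
  have hCT : ∀ x ∈ C, x ∈ T := fun x hx => by rw [hT]; exact Subgroup.subset_closure hx
  obtain ⟨R, hR⟩ : ∃ R : Subgroup G, R = T ⊓ N := ⟨_, rfl⟩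
  have hRn : R.Normal := by rw [hR]; infer_instance
  have hRT : R ≤ T := by rw [hR]; exact inf_le_left
  have hRN : R ≤ N := by rw [hR]; exact inf_le_right
  have hRc : ∀ x ∈ R, ∀ y ∈ R, x * y = y * x := fun x hx y hy => hN x (hRN hx) y (hRN hy)
  -- `T / R` is a `p`-group
  have hTR : ∀ x ∈ T, ∃ j : ℕ, x ^ p ^ j ∈ R := by
    have h1 : T.map (QuotientGroup.mk' N) = Subgroup.closure (QuotientGroup.mk' N '' C) := by
      rw [hT, MonoidHom.map_closure]
    have h2 : IsPGroup p (Subgroup.closure (QuotientGroup.mk' N '' C)) := by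
      refine H51.K3.tz_pgroupc _ k ?_ hp ?_
      · rw [← h1]
        rintro _ ⟨x, hx, rfl⟩
        exact hk x hx
      · rintro _ ⟨x, hx, rfl⟩
        rw [← map_pow, hL x hx, map_one]
    intro x hx
    have h3 : (QuotientGroup.mk' N) x ∈ Subgroup.closure (QuotientGroup.mk' N '' C) := by
      rw [← h1]
      exact ⟨x, hx, rfl⟩
    obtain ⟨j, hj⟩ := h2 ⟨_, h3⟩
    have h4 : (QuotientGroup.mk' N) x ^ p ^ j = 1 := congrArg Subtype.val hj
    refine ⟨j, ?_⟩
    rw [hR]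
    refine ⟨T.pow_mem hx _, ?_⟩
    rw [← map_pow] at h4
    exact (QuotientGroup.eq_one_iff _).1 h4
  have hcR : Nat.card R ∣ Nat.card N := Subgroup.card_dvd_of_le hRN
  have hpN : Nat.Coprime p (Nat.card N) := (Nat.coprime_comm.1 hco).coprime_dvd_left (Dvd.intro _ rfl)
  have hpR : Nat.Coprime p (Nat.card R) := hpN.coprime_dvd_right hcR
  have : Fact p.Prime := ⟨hp⟩
  have hcard : Nat.card (R.subgroupOf T) = Nat.card R := Nat.card_congr (Subgroup.subgroupOfEquivOfLe hRT).toEquiv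
  have hidx : ∃ j : ℕ, (R.subgroupOf T).index = p ^ j := by
    have h1 : IsPGroup p (T ⧸ R.subgroupOf T) := by
      intro y
      obtain ⟨x, rfl⟩ := QuotientGroup.mk_surjective y
      obtain ⟨j, hj⟩ := hTR x x.2
      refine ⟨j, ?_⟩
      rw [← QuotientGroup.mk_pow]
      exact (QuotientGroup.eq_one_iff _).2 hj
    obtain ⟨j, hj⟩ := (IsPGroup.iff_card).1 h1
    exact ⟨j, hj⟩
  obtain ⟨j₀, hj₀⟩ := hidx
  have hcop : Nat.Coprime (Nat.card (R.subgroupOf T)) (R.subgroupOf T).index := by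
    rw [hcard, hj₀, Nat.coprime_comm]
    exact hpR.pow_left _
  obtain ⟨P₀, hP₀⟩ := Subgroup.exists_right_complement'_of_coprime (N := R.subgroupOf T) hcop
  obtain ⟨P, hP⟩ : ∃ P : Subgroup G, P = P₀.map T.subtype := ⟨_, rfl⟩
  have hPT : P ≤ T := by
    rw [hP]
    rintro _ ⟨x, -, rfl⟩
    exact x.2
  have hdec : ∀ b ∈ T, ∃ y ∈ R, ∃ h ∈ P, b = y * h := by
    intro b hb
    obtain ⟨⟨⟨v, hv⟩, ⟨m, hm⟩⟩, hvm, -⟩ := (Subgroup.isComplement_iff_existsUnique.1 hP₀) ⟨b, hb⟩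
    refine ⟨v, hv, m, ?_, (congrArg Subtype.val hvm).symm⟩
    rw [hP]
    exact ⟨m, hm, rfl⟩
  have hRP : R ⊓ P = ⊥ := by
    rw [eq_bot_iff]
    rintro x ⟨h1, h2⟩
    rw [hP] at h2
    obtain ⟨m, hm, rfl⟩ := h2
    have h3 := Subgroup.disjoint_def.1 hP₀.disjoint (x := m) h1 hm
    rw [h3]
    exact Subgroup.mem_bot.2 rfl
  have hRP1 : ∀ x, x ∈ R → x ∈ P → x = 1 := fun x h1 h2 => by
    have h3 : x ∈ R ⊓ P := ⟨h1, h2⟩
    rw [hRP] at h3
    exact Subgroup.mem_bot.1 h3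
  have hcP : Nat.Coprime (Nat.card R) (Nat.card P) := by
    have h1 : Nat.card P = Nat.card P₀ := by
      rw [hP]
      exact Subgroup.card_map_of_injective T.subtype_injective
    have h2 := hP₀.card_mul_card
    have h3 := Subgroup.card_mul_index (R.subgroupOf T)
    have h4 : 0 < Nat.card (R.subgroupOf T) := Nat.card_pos
    have h5 : Nat.card P₀ = (R.subgroupOf T).index := Nat.eq_of_mul_eq_mul_left h4 (h2.trans h3.symm)
    rw [h1, h5, hj₀, Nat.coprime_comm]
    exact hpR.pow_left _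
  obtain ⟨M, hM⟩ : ∃ M : Subgroup G, M = (Subgroup.normalizer (P : Set G) : Subgroup G) := ⟨_, rfl⟩
  have hPM : P ≤ M := by rw [hM]; exact Subgroup.le_normalizer
  have hMP : ∀ m ∈ M, ∀ h ∈ P, m * h * m⁻¹ ∈ P := by
    intro m hm h hh
    rw [hM, Subgroup.mem_normalizer_iff] at hm
    exact (hm h).1 hh
  have hS : Sup C R M := by
    refine ⟨hRc, ?_, fun g => ?_, fun x hx => ?_⟩
    · have h1 : (Subgroup.centralizer (R : Set G)).index ∣ (Subgroup.centralizer (N : Set G)).index :=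
        Subgroup.index_dvd_of_le (Subgroup.centralizer_le hRN)
      exact ((hco.coprime_dvd_left hcR).coprime_dvd_right (Dvd.intro_left _ rfl)).coprime_dvd_right h1
    · obtain ⟨y, hy, m, hm, hg⟩ := H71.GT.frat R P T hRc hPT hdec hRP hcP g
      exact ⟨y, hy, m, by rw [hM]; exact hm, hg⟩
    · obtain ⟨y, hy, h, hh, rfl⟩ := hdec x (hCT x hx)
      have h3 : (y * h) ^ p = 1 := hL _ hx
      have h4 : ∀ j : ℕ, (y * h) ^ j * (h ^ j)⁻¹ ∈ R := by
        intro j
        induction j with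
        | zero => rw [pow_zero, pow_zero, inv_one, mul_one]; exact R.one_mem
        | succ j ih =>
          have h5 : (y * h) ^ (j + 1) * (h ^ (j + 1))⁻¹ = y * (h * ((y * h) ^ j * (h ^ j)⁻¹) * h⁻¹) := by
            rw [pow_succ' (y * h), pow_succ' h]
            group
          rw [h5]
          exact R.mul_mem hy (hRn.conj_mem _ ih h)
      have h6 : h ^ p = 1 := by
        refine hRP1 _ ?_ (P.pow_mem hh _)
        have h7 := h4 p
        rw [h3, one_mul] at h7
        have h8 := R.inv_mem h7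
        rwa [inv_inv] at h8
      obtain ⟨s, hs, hs2⟩ := H71.KA.zas R hRc (fun x hx => hRn.conj_mem x hx h) hy h3 h6 hpR
      refine ⟨s⁻¹, ?_⟩
      rw [hs2]
      have h9 : s⁻¹ * (s * h * s⁻¹) * s⁻¹⁻¹ = h := by group
      rw [h9]
      exact hPM hh
  refine MC.sup C R M hS (MC.loc _ p hp (fun x hx => Subtype.ext (hL _ hx)) (lc_hyp {x : M | (x : G) ∈ C}
    (fun x hx g => hcc (x : G) hx (g : G)) hp (fun x hx => Subtype.ext (hL _ hx)) k ?_))
  -- the elements of `C ∩ M` are in `P`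
  have hCP : ∀ x ∈ C, x ∈ M → x ∈ P := by
    intro x hx hxM
    obtain ⟨y, hy, h, hh, rfl⟩ := hdec x (hCT x hx)
    have hyM : y ∈ M := by
      have h1 := M.mul_mem hxM (M.inv_mem (hPM hh))
      rwa [mul_inv_cancel_right] at h1
    have hyh : y * h = h * y := by
      have h1 : y * h * y⁻¹ * h⁻¹ ∈ P := P.mul_mem (hMP y hyM h hh) (P.inv_mem hh)
      have h2 : y * h * y⁻¹ * h⁻¹ ∈ R := by
        have h3 : y * h * y⁻¹ * h⁻¹ = y * (h * y⁻¹ * h⁻¹) := by group
        rw [h3]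
        exact R.mul_mem hy (hRn.conj_mem _ (R.inv_mem hy) h)
      have h3 := hRP1 _ h2 h1
      rw [mul_inv_eq_one, mul_inv_eq_iff_eq_mul] at h3
      exact h3
    have h1 : (y * h) ^ p = 1 := hL _ hx
    rw [(show Commute y h from hyh).mul_pow] at h1
    have h2 : y ^ p = 1 := by
      refine hRP1 _ (R.pow_mem hy _) ?_
      rw [mul_eq_one_iff_eq_inv.1 h1]
      exact P.inv_mem (P.pow_mem hh _)
    have h3 : orderOf y ∣ Nat.gcd p (Nat.card R) := by
      refine Nat.dvd_gcd (orderOf_dvd_of_pow_eq_one h2) ?_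
      have h6 := orderOf_dvd_natCard (⟨y, hy⟩ : R)
      rwa [Subgroup.orderOf_mk] at h6
    rw [hpR, Nat.dvd_one, orderOf_eq_one_iff] at h3
    rw [h3, one_mul]
    exact hh
  -- the upper central series
  have key : ∀ (i : ℕ) (x : M), (x : G) ∈ P → (((x : G) : G ⧸ N) ∈ Subgroup.upperCentralSeries (G ⧸ N) i) →
      x ∈ Subgroup.upperCentralSeries M i := by
    intro i
    induction i with
    | zero =>
      intro x hx hxi
      rw [Subgroup.upperCentralSeries_zero, Subgroup.mem_bot] at hxi ⊢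
      have h1 : (x : G) ∈ R := by
        rw [hR]
        exact ⟨hPT hx, (QuotientGroup.eq_one_iff _).1 hxi⟩
      exact Subtype.ext (hRP1 _ h1 hx)
    | succ i ih =>
      intro x hx hxi
      rw [Subgroup.mem_upperCentralSeries_succ_iff] at hxi ⊢
      intro y
      refine ih _ ?_ ?_
      · have h1 : ((⁅x, y⁆ : M) : G) = x * (y * (x : G)⁻¹ * (y : G)⁻¹) := by
          rw [commutatorElement_def]
          show (x : G) * y * (x : G)⁻¹ * (y : G)⁻¹ = _
          group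
        rw [h1]
        exact P.mul_mem hx (hMP y y.2 _ (P.inv_mem hx))
      · exact hxi ((y : G) : G ⧸ N)
  rw [Subgroup.closure_le]
  intro x hx
  exact key k x (hCP _ hx x.2) (hk _ (hCT _ hx))

end H51.K4
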