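import Pool.Agent.H51.K4.Hyp
import Pool.Agent.H51.K3.Low
import Pool.Agent.H71.CL.Lcs

/-!
# [H51 K4 LOW] the lower bound from a part `C` of the elements of least index: the explicit cases

`low_cfd`, `low_agd`, `low_lcd`: from `H51.K3`, `H71.CL`. `low_hyd`: `⟨C⟩` hypercentral. `low_hyn`: `⟨C⟩ N / N` hypercentral. `low_med`: `⟨C⟩'` abelian.
-/

set_option autoImplicit false

open scoped NumberField
open scoped Classical commutatorElement

noncomputable section

namespace H51.K4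

open H38.ML.Spec H88.LB

variable {n : ℕ}

theorem low_cfd (hn : 2 ≤ n) (G : Subgroup (Equiv.Perm (Fin n)))
    (hG : MulAction.IsPretransitive G (Fin n)) (C : Set G) (hC : Part G C)
    (hs : Group.IsSolvable (Subgroup.closure C))
    (hc : ∀ q : ℕ, q.Prime → q ∣ Nat.card (Subgroup.closure C) → ¬ q ^ 3 ∣ Nat.card G) : LowC G C :=
  k4_low (H51.K3.low_cfc hn G hG C (k3_part hC) hs hc)

theorem low_agd (hn : 2 ≤ n) (G : Subgroup (Equiv.Perm (Fin n)))
    (hG : MulAction.IsPretransitive G (Fin n)) (C : Set G) (hC : Part G C) (p : ℕ) (hp : p.Prime)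
    (hL : ∀ h ∈ C, h ^ p = 1)
    (hsol : Group.IsSolvable (Subgroup.closure C))
    (hP : ∀ Q : Subgroup G, Q ≤ Subgroup.closure C → IsPGroup p Q → IsMulCommutative Q)
    (hQ : ∀ q : ℕ, q.Prime →
      q ∣ Nat.card (⁅Subgroup.closure C, Subgroup.closure C⁆ : Subgroup G) →
      ∀ Q : Subgroup G, IsPGroup q Q → IsMulCommutative Q) : LowC G C :=
  k4_low (H51.K3.low_agc hn G hG C (k3_part hC) p hp hL hsol hP hQ)

theorem low_hyd (hn : 2 ≤ n) (G : Subgroup (Equiv.Perm (Fin n)))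
    (hG : MulAction.IsPretransitive G (Fin n)) (C : Set G) (hC : Part G C)
    (h : ∃ j : ℕ, Subgroup.closure C ≤ Subgroup.upperCentralSeries G j) : LowC G C :=
  k4_low (H51.K3.low_hyc hn G hG C (k3_part hC) h)

theorem low_hyn (hlc : LCB) (hn : 2 ≤ n) (G : Subgroup (Equiv.Perm (Fin n)))
    (hG : MulAction.IsPretransitive G (Fin n)) (C : Set G) (hC : Part G C) (p : ℕ) (hp : p.Prime)
    (hL : ∀ h ∈ C, h ^ p = 1) (N : Subgroup G) [N.Normal] (hN : ∀ x ∈ N, ∀ y ∈ N, x * y = y * x)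
    (hco : Nat.Coprime (Nat.card N) (p * (Subgroup.centralizer (N : Set G)).index)) (k : ℕ)
    (hk : ∀ x ∈ Subgroup.closure C, (x : G ⧸ N) ∈ Subgroup.upperCentralSeries (G ⧸ N) k) : LowC G C :=
  low_mcc hlc hn G hG C hC (hypn_mc C hC.conj hp hL N hN hco k hk)

theorem low_med (hn : 2 ≤ n) (G : Subgroup (Equiv.Perm (Fin n)))
    (hG : MulAction.IsPretransitive G (Fin n)) (C : Set G) (hC : Part G C)
    (hcom : ∀ x ∈ ⁅Subgroup.closure C, Subgroup.closure C⁆, ∀ y ∈ ⁅Subgroup.closure C, Subgroup.closure C⁆,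
      x * y = y * x)
    (hact : Nat.Coprime (Nat.card (⁅Subgroup.closure C, Subgroup.closure C⁆ : Subgroup G))
      (Subgroup.centralizer ((⁅Subgroup.closure C, Subgroup.closure C⁆ : Subgroup G) : Set G)).index)
    (htyp : ∀ x ∈ C, x ∈ ⁅Subgroup.closure C, Subgroup.closure C⁆ ∨
      Nat.Coprime (orderOf x) (Nat.card (⁅Subgroup.closure C, Subgroup.closure C⁆ : Subgroup G))) : LowC G C :=
  k4_low (H51.K3.low_met hn G hG C (k3_part hC) hcom hact htyp)

theorem low_lcd (hn : 2 ≤ n) (G : Subgroup (Equiv.Perm (Fin n)))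
    (hG : MulAction.IsPretransitive G (Fin n)) (C : Set G) (hC : Part G C) (j : ℕ)
    (hj : Subgroup.closure C ⊓ (⊤ : Subgroup G).lowerCentralSeries j = ⊥) :
    ∃ m : ℕ, 0 < m ∧ ∀ K : IntermediateField ℚ (AlgebraicClosure ℚ), ∀ _ : NumberField K,
      (∃ z : K, IsPrimitiveRoot z m) → IsGaloisGroup K (AlgebraicClosure ℚ) G → LowKC K G C :=
  H71.CL.low_lcs n hn G hG C hC.least hC.nonempty hC.conj j hj

end H51.K4
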