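import Pool.Agent.H51.K3.Two
import Pool.Agent.H51.K4.Spec
import Pool.Agent.H51.K3.Cnt
import Pool.Agent.H88.LB.Cls
import Pool.Agent.H35.SN.Ty

/-!
# [H51 K4 MC] `BASE1` for the class `MC`

`mcc_base`: `BASE1` for `MC`. `low_mcc`: the lower bound from a part `C` of the elements of least index.
-/

set_option autoImplicit false

open scoped NumberField
open IsDedekindDomain H38.ML
open scoped Classical

noncomputable section

namespace H51.K4

open H63.MA H38.BB H38.BG H77.PC3 H77.PLF H51.HD H51.HC H51.F3 H51.F4 H88.LH H35.SN H88.LB H51.K2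

theorem k3_sup {G : Type} [Group G] {L : Set G} {V M : Subgroup G} [V.Normal] (h : Sup L V M) : H51.K3.Sup L V M :=
  ⟨h.comm, h.coprime, h.mul, h.mem⟩

theorem k3_two {G : Type} [Group G] {L : Set G} {N A : Subgroup G} [N.Normal] (h : Two L N A) : H51.K3.Two L N A :=
  ⟨h.comm, h.compl, h.coprime, h.derived, h.type⟩

/-- `BASE1` for the class `LC p` -/
def LCB : Prop :=
  ∀ (p : ℕ) (_ : p.Prime) (G : Type) [Group G] [Finite G] (L : Set G) (_ : H51.K4.LC p L) (N : ℕ) (_ : 1 ≤ N)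
    (c : CL p N G) (_ : L = {x | ∃ i, IsConj x (c.g i)}) (_ : ∀ x ∈ L, ∀ j : ℕ, ¬ p ∣ j → x ^ j ∈ L), BASE1 L N

private theorem ord_eq {G : Type} [Group G] {x y : G} (h : IsConj x y) : orderOf x = orderOf y := by
  obtain ⟨c, rfl⟩ := isConj_iff.1 h
  have h1 : c * x * c⁻¹ = MulAut.conj c x := rfl
  rw [h1, MulEquiv.orderOf_eq]

theorem mcc_base (hlc : LCB) (hst : STP)
    {G : Type} [Group G] {L : Set G} (h : H51.K4.MC L) :
    ∀ [Finite G] (N : ℕ) (_ : 1 ≤ N) (g : Fin N → G) (_ : ∀ i j, IsConj (g i) (g j) → i = j)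
      (_ : ∀ x, x ∈ L ↔ ∃ i, IsConj x (g i)) (_ : ∀ x ∈ L, (orderOf x).Prime)
      (_ : ∀ x ∈ L, ∀ j : ℕ, Nat.Coprime j (orderOf x) → x ^ j ∈ L), BASE1 L N := by
  induction h with
  | @two G _ L N A _ h =>
    intro _ r hr g uni hI hp _
    refine H51.K3.two_base L hp (fun x hx y => ?_) N A (k3_two h) hr g uni hI
    obtain ⟨i, hi⟩ := (hI x).1 hx
    exact (hI _).2 ⟨i, (isConj_iff.2 ⟨y, rfl⟩ : IsConj x _).symm.trans hi⟩
  | loc L p hp hL h =>
    intro _ r hr g uni hI hpr hpw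
    have hgL : ∀ i, g i ∈ L := fun i => (hI _).2 ⟨i, IsConj.refl _⟩
    refine hlc p hp _ L h r hr ⟨g, fun i => hL _ (hgL i), fun i hi => ?_, uni⟩ ?_ ?_
    · have h3 := hpr _ (hgL i)
      rw [hi, orderOf_one] at h3
      exact Nat.not_prime_one h3
    · ext x
      exact hI x
    · intro x hx j hj
      refine hpw x hx j ?_
      have h3 : orderOf x = p :=
        (Nat.prime_dvd_prime_iff_eq (hpr x hx) hp).1 (orderOf_dvd_of_pow_eq_one (hL x hx))
      rw [h3, Nat.coprime_comm]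
      exact (Nat.Prime.coprime_iff_not_dvd hp).2 hj
  | @sup G _ L V M _ hV h ih =>
    intro _ r hr g uni hI hpr hpw
    obtain ⟨g', uni', hI'⟩ := H51.K3.sup_cls L V M (k3_sup hV) hpr g uni hI
    refine H51.K3.sup_base L (fun x hx y => ?_) V M (k3_sup hV) (ih r hr g' uni' hI' (fun x hx => ?_) fun x hx j hj => ?_)
    · obtain ⟨i, hi⟩ := (hI x).1 hx
      exact (hI _).2 ⟨i, (isConj_iff.2 ⟨y, rfl⟩ : IsConj x _).symm.trans hi⟩
    · rw [← Subgroup.orderOf_coe]
      exact hpr _ hx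
    · rw [← Subgroup.orderOf_coe] at hj
      exact hpw _ hx j hj
  | @step G Gb _ _ L π hπ h ih =>
    intro _ r hr g uni hI hpr hpw
    have hsur := hπ.surjective
    have hcom := hπ.comm
    have : Finite Gb := Finite.of_surjective π hsur
    obtain ⟨s, hsec, hsL⟩ := hπ.split
    have hsi : Function.Injective s := Function.LeftInverse.injective hsec
    -- every element of `L` is conjugate to its image in the complement
    have hLs : ∀ x ∈ L, IsConj (s (π x)) x := by
      intro x hx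
      obtain ⟨c, y, hy⟩ := hsL x hx
      have h3 : y = π c * π x * (π c)⁻¹ := by
        rw [← hsec y, hy, map_mul, map_mul, map_inv]
      have h4 : IsConj (s (π x)) (s y) := by
        rw [h3, map_mul, map_mul, map_inv]
        exact isConj_iff.2 ⟨s (π c), rfl⟩
      rw [hy] at h4
      exact h4.trans (isConj_iff.2 ⟨c, rfl⟩ : IsConj x _).symm
    have hord : ∀ x ∈ L, orderOf (π x) = orderOf x := by
      intro x hx
      rw [← ord_eq (hLs x hx)]
      exact (orderOf_injective s hsi _).symm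
    -- classes
    have key : ∀ x ∈ L, ∀ y ∈ L, IsConj (π y) (π x) → IsConj y x := by
      intro x hx y hy hxy
      exact (hLs y hy).symm.trans ((MonoidHom.map_isConj s hxy).trans (hLs x hx))
    have hcc : ∀ x ∈ L, ∀ y : G, y * x * y⁻¹ ∈ L := by
      intro x hx y
      obtain ⟨i, hi⟩ := (hI x).1 hx
      exact (hI _).2 ⟨i, (isConj_iff.2 ⟨y, rfl⟩ : IsConj x _).symm.trans hi⟩
    have hgL : ∀ i, g i ∈ L := fun i => (hI _).2 ⟨i, IsConj.refl _⟩
    have hsL' : ∀ y ∈ π '' L, s y ∈ L := by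
      rintro _ ⟨x, hx, rfl⟩
      obtain ⟨c, hc⟩ := isConj_iff.1 (hLs x hx).symm
      rw [← hc]
      exact hcc x hx c
    have hb : BASE1 (π '' L) r := by
      refine ih r hr (fun i => π (g i)) ?_ ?_ ?_ ?_
      · intro i j hij
        exact uni i j (key _ (hgL j) _ (hgL i) hij)
      · intro y
        constructor
        · rintro ⟨x, hx, rfl⟩
          obtain ⟨i, hi⟩ := (hI x).1 hx
          exact ⟨i, MonoidHom.map_isConj π hi⟩
        · rintro ⟨i, hi⟩
          obtain ⟨c, hc⟩ := isConj_iff.1 hi.symm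
          obtain ⟨c', rfl⟩ := hsur c
          refine ⟨c' * g i * c'⁻¹, hcc _ (hgL i) c', ?_⟩
          rw [← hc, map_mul, map_mul, map_inv]
      · rintro _ ⟨x, hx, rfl⟩
        rw [hord x hx]
        exact hpr x hx
      · rintro _ ⟨x, hx, rfl⟩ j hj
        rw [hord x hx] at hj
        exact ⟨x ^ j, hpw x hx j hj, map_pow π x j⟩
    obtain ⟨l, hl, he⟩ := hπ.exponent
    have hS : STEP l π := ⟨hl, hsur, hπ.ne, hcom, he, hπ.minimal, ⟨s, hsec⟩, hπ.projective⟩
    exact base1_lfs hl.pos (H71.KA.lfs_step hst hS s hsec) hsur L (π '' L) hsL' hcc hb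

theorem k3_part {n : ℕ} {G : Subgroup (Equiv.Perm (Fin n))} {C : Set G} (h : Part G C) : H51.K3.Part G C :=
  ⟨h.nonempty, h.least, h.conj, h.pow⟩

theorem k4_part {n : ℕ} {G : Subgroup (Equiv.Perm (Fin n))} {C : Set G} (h : H51.K3.Part G C) : Part G C :=
  ⟨h.nonempty, h.least, h.conj, h.pow⟩

theorem k4_low {n : ℕ} {G : Subgroup (Equiv.Perm (Fin n))} {C : Set G} (h : H51.K3.LowC G C) : LowC G C := h

/-- the lower bound from a part `C` in the class `MC` -/
theorem low_mcc (hlc : LCB) {n : ℕ} (hn : 2 ≤ n) (G : Subgroup (Equiv.Perm (Fin n)))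
    (hG : MulAction.IsPretransitive G (Fin n)) (C : Set G) (hC : Part G C) (h : H51.K4.MC C) : LowC G C :=
  k4_low (H51.K3.lowc_of_base1 hn G hG C (k3_part hC) fun r hr g uni hI =>
    mcc_base hlc H51.SN.stpf h r hr g uni hI (H51.K3.part_prime (k3_part hC)) hC.pow)

end H51.K4
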