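import Pool.Agent.H51.K4.Hyp

/-!
# [H51 K4 SCN] `HypN p C N` gives `SC p ⟨C⟩ C`

`hypn_dec`: the decomposition `⟨C⟩ = R P`, `R = ⟨C⟩ ∩ N`; the normaliser of `P` is a complement of `R` in `G`. `sc_hypn`.
-/

set_option autoImplicit false

open scoped Classical commutatorElement

noncomputable section

namespace H51.K4

open H51.HD H88.LB

/-- `⟨C⟩ ∩ N` has a complement in `G` -/
theorem hypn_compl {G : Type} [Group G] [Finite G] (C : Set G) (hcc : ∀ x ∈ C, ∀ g : G, g * x * g⁻¹ ∈ C) {p : ℕ}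
    (hp : p.Prime) (N : Subgroup G) [N.Normal] (h : HypN p C N) :
    ∃ M : Subgroup G, Subgroup.IsComplement' (Subgroup.closure C ⊓ N) M := by
  obtain ⟨k, hk⟩ := h.hyp
  have hL := h.pow
  have hN := h.comm
  have hco := h.coprime
  obtain ⟨T, hT⟩ : ∃ T : Subgroup G, T = Subgroup.closure C := ⟨_, rfl⟩
  have hTn : T.Normal := by rw [hT]; exact H51.K3.clo_normal C hcc
  rw [← hT] at hk ⊢
  have hCT : ∀ x ∈ C, x ∈ T := fun x hx => by rw [hT]; exact Subgroup.subset_closure hx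
  obtain ⟨R, hR⟩ : ∃ R : Subgroup G, R = T ⊓ N := ⟨_, rfl⟩
  rw [← hR]
  have hRn : R.Normal := by rw [hR]; infer_instance
  have hRT : R ≤ T := by rw [hR]; exact inf_le_left
  have hRN : R ≤ N := by rw [hR]; exact inf_le_right
  have hRc : ∀ x ∈ R, ∀ y ∈ R, x * y = y * x := fun x hx y hy => hN x (hRN hx) y (hRN hy)
  have hcR : Nat.card R ∣ Nat.card N := Subgroup.card_dvd_of_le hRN
  have hpN : Nat.Coprime p (Nat.card N) := (Nat.coprime_comm.1 hco).coprime_dvd_left (Dvd.intro _ rfl)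
  have hpR : Nat.Coprime p (Nat.card R) := hpN.coprime_dvd_right hcR
  -- `T / R` is a `p`-group
  have hTR : ∀ x ∈ T, ∃ j : ℕ, x ^ p ^ j ∈ R := by
    have h1 : T.map (QuotientGroup.mk' N) = Subgroup.closure (QuotientGroup.mk' N '' C) := by
      rw [hT, MonoidHom.map_closure]
    have h2 : IsPGroup p (Subgroup.closure (QuotientGroup.mk' N '' C)) := by
      refine H51.K3.tz_pgroupc _ k ?_ hp ?_
      · rw [← h1]
        rintro _ ⟨x, hx, rfl⟩
        exact hk x hx
      · rintro _ ⟨x, hx, rfl⟩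
        rw [← map_pow, hL x hx, map_one]
    intro x hx
    have h3 : (QuotientGroup.mk' N) x ∈ Subgroup.closure (QuotientGroup.mk' N '' C) := by
      rw [← h1]
      exact ⟨x, hx, rfl⟩
    obtain ⟨j, hj⟩ := h2 ⟨_, h3⟩
    have h4 : (QuotientGroup.mk' N) x ^ p ^ j = 1 := congrArg Subtype.val hj
    refine ⟨j, ?_⟩
    rw [hR]
    refine ⟨T.pow_mem hx _, ?_⟩
    rw [← map_pow] at h4
    exact (QuotientGroup.eq_one_iff _).1 h4
  have : Fact p.Prime := ⟨hp⟩
  have hcard : Nat.card (R.subgroupOf T) = Nat.card R := Nat.card_congr (Subgroup.subgroupOfEquivOfLe hRT).toEquiv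
  obtain ⟨j₀, hj₀⟩ : ∃ j : ℕ, (R.subgroupOf T).index = p ^ j := by
    have h1 : IsPGroup p (T ⧸ R.subgroupOf T) := by
      intro y
      obtain ⟨x, rfl⟩ := QuotientGroup.mk_surjective y
      obtain ⟨j, hj⟩ := hTR x x.2
      refine ⟨j, ?_⟩
      rw [← QuotientGroup.mk_pow]
      exact (QuotientGroup.eq_one_iff _).2 hj
    obtain ⟨j, hj⟩ := (IsPGroup.iff_card).1 h1
    exact ⟨j, hj⟩
  have hcop : Nat.Coprime (Nat.card (R.subgroupOf T)) (R.subgroupOf T).index := by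
    rw [hcard, hj₀, Nat.coprime_comm]
    exact hpR.pow_left _
  obtain ⟨P₀, hP₀⟩ := Subgroup.exists_right_complement'_of_coprime (N := R.subgroupOf T) hcop
  obtain ⟨P, hP⟩ : ∃ P : Subgroup G, P = P₀.map T.subtype := ⟨_, rfl⟩
  have hPT : P ≤ T := by
    rw [hP]
    rintro _ ⟨x, -, rfl⟩
    exact x.2
  have hdec : ∀ b ∈ T, ∃ y ∈ R, ∃ h ∈ P, b = y * h := by
    intro b hb
    obtain ⟨⟨⟨v, hv⟩, ⟨m, hm⟩⟩, hvm, -⟩ := (Subgroup.isComplement_iff_existsUnique.1 hP₀) ⟨b, hb⟩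
    refine ⟨v, hv, m, ?_, (congrArg Subtype.val hvm).symm⟩
    rw [hP]
    exact ⟨m, hm, rfl⟩
  have hRP : R ⊓ P = ⊥ := by
    rw [eq_bot_iff]
    rintro x ⟨h1, h2⟩
    rw [hP] at h2
    obtain ⟨m, hm, rfl⟩ := h2
    have h3 := Subgroup.disjoint_def.1 hP₀.disjoint (x := m) h1 hm
    rw [h3]
    exact Subgroup.mem_bot.2 rfl
  have hRP1 : ∀ x, x ∈ R → x ∈ P → x = 1 := fun x h1 h2 => by
    have h3 : x ∈ R ⊓ P := ⟨h1, h2⟩
    rw [hRP] at h3
    exact Subgroup.mem_bot.1 h3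
  have hcPp : Nat.card P = p ^ j₀ := by
    have h1 : Nat.card P = Nat.card P₀ := by
      rw [hP]
      exact Subgroup.card_map_of_injective T.subtype_injective
    have h2 := hP₀.card_mul_card
    have h3 := Subgroup.card_mul_index (R.subgroupOf T)
    have h4 : 0 < Nat.card (R.subgroupOf T) := Nat.card_pos
    rw [h1, Nat.eq_of_mul_eq_mul_left h4 (h2.trans h3.symm), hj₀]
  have hcP : Nat.Coprime (Nat.card R) (Nat.card P) := by
    rw [hcPp, Nat.coprime_comm]
    exact hpR.pow_left _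
  have hfr := fun g => H71.GT.frat R P T hRc hPT hdec hRP hcP g
  obtain ⟨M, hM⟩ : ∃ M : Subgroup G, M = (Subgroup.normalizer (P : Set G) : Subgroup G) := ⟨_, rfl⟩
  refine ⟨M, Subgroup.isComplement'_of_disjoint_and_mul_eq_univ (Subgroup.disjoint_def.2 fun {y} hy hyM => ?_) ?_⟩
  · -- `y ∈ R` commutes with `P`
    rw [hM, Subgroup.mem_normalizer_iff] at hyM
    have hyP : ∀ h ∈ P, y * h = h * y := by
      intro h hh
      have h1 : y * h * y⁻¹ * h⁻¹ ∈ P := P.mul_mem ((hyM h).1 hh) (P.inv_mem hh)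
      have h2 : y * h * y⁻¹ * h⁻¹ ∈ R := by
        have h3 : y * h * y⁻¹ * h⁻¹ = y * (h * y⁻¹ * h⁻¹) := by group
        rw [h3]
        exact R.mul_mem hy (hRn.conj_mem _ (R.inv_mem hy) h)
      have h3 := hRP1 _ h2 h1
      rw [mul_inv_eq_one, mul_inv_eq_iff_eq_mul] at h3
      exact h3
    have hyT : ∀ b ∈ T, y * b = b * y := by
      intro b hb
      obtain ⟨v, hv, h, hh, rfl⟩ := hdec b hb
      rw [← mul_assoc, hRc y hy v hv, mul_assoc, hyP h hh, mul_assoc]
    -- transfer to `R`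
    have hPc : IsMulCommutative (R.subgroupOf T) :=
      ⟨⟨fun a b => Subtype.ext (Subtype.ext (hRc _ a.2 _ b.2))⟩⟩
    have key : ∀ (k : ℕ) (g₀ : T), g₀⁻¹ * (⟨y, hRT hy⟩ : T) ^ k * g₀ ∈ R.subgroupOf T →
        g₀⁻¹ * (⟨y, hRT hy⟩ : T) ^ k * g₀ = (⟨y, hRT hy⟩ : T) ^ k := by
      intro k g₀ _
      have h0 : Commute g₀ (⟨y, hRT hy⟩ : T) := Subtype.ext (hyT g₀ g₀.2).symm
      have h1 : g₀ * (⟨y, hRT hy⟩ : T) ^ k = (⟨y, hRT hy⟩ : T) ^ k * g₀ := h0.pow_right k
      rw [mul_assoc, ← h1, inv_mul_cancel_left]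
    open scoped IsMulCommutative in
    obtain ⟨tr, htr⟩ : ∃ tr : T →* R.subgroupOf T, tr = MonoidHom.transfer (MonoidHom.id (R.subgroupOf T)) := ⟨_, rfl⟩
    have h2 : (tr (⟨y, hRT hy⟩ : T) : T) = (⟨y, hRT hy⟩ : T) ^ (R.subgroupOf T).index := by
      rw [htr]
      exact congrArg Subtype.val (MonoidHom.transfer_eq_pow (MonoidHom.id (R.subgroupOf T)) (⟨y, hRT hy⟩ : T) key)
    -- the transfer is trivial on the generators of `T`
    have h3 : ∀ x : T, tr x = 1 := by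
      have h4 : ∀ x ∈ Subgroup.closure C, ∀ hx : x ∈ T, tr ⟨x, hx⟩ = 1 := by
        intro x hx
        induction hx using Subgroup.closure_induction with
        | mem z hz =>
          intro hzT
          have h5 : (tr ⟨z, hzT⟩) ^ p = 1 := by
            rw [← map_pow]
            have h6 : (⟨z, hzT⟩ : T) ^ p = 1 := Subtype.ext (hL z hz)
            rw [h6, map_one]
          have h6 : orderOf (tr ⟨z, hzT⟩) ∣ Nat.gcd p (Nat.card R) := by
            refine Nat.dvd_gcd (orderOf_dvd_of_pow_eq_one h5) ?_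
            rw [← hcard]
            exact orderOf_dvd_natCard _
          rw [hpR, Nat.dvd_one, orderOf_eq_one_iff] at h6
          exact h6
        | one => intro hx; exact map_one tr
        | mul a b ha hb iha ihb =>
          intro hab
          have ha' : a ∈ T := by rw [hT]; exact ha
          have hb' : b ∈ T := by rw [hT]; exact hb
          have h5 : (⟨a * b, hab⟩ : T) = ⟨a, ha'⟩ * ⟨b, hb'⟩ := rfl
          rw [h5, map_mul, iha ha', ihb hb', mul_one]
        | inv a ha iha =>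
          intro hx
          have ha' : a ∈ T := by rw [hT]; exact ha
          have h5 : (⟨a⁻¹, hx⟩ : T) = (⟨a, ha'⟩ : T)⁻¹ := rfl
          rw [h5, map_inv, iha ha', inv_one]
      rintro ⟨x, hx⟩
      exact h4 x (by rw [← hT]; exact hx) hx
    rw [h3] at h2
    have h4 : (⟨y, hRT hy⟩ : T) ^ (R.subgroupOf T).index = 1 := h2.symm
    have h4' : y ^ (R.subgroupOf T).index = 1 := congrArg Subtype.val h4
    have h5 : orderOf y ∣ Nat.card R := by
      have h6 := orderOf_dvd_natCard (⟨y, hy⟩ : R)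
      rwa [Subgroup.orderOf_mk] at h6
    have h6 : orderOf y ∣ Nat.gcd (R.subgroupOf T).index (Nat.card R) :=
      Nat.dvd_gcd (orderOf_dvd_of_pow_eq_one h4') h5
    have h7 : Nat.gcd (R.subgroupOf T).index (Nat.card R) = 1 := by
      rw [← hcard]
      exact Nat.coprime_comm.1 hcop
    rw [h7, Nat.dvd_one, orderOf_eq_one_iff] at h6
    exact h6
  · ext g
    refine ⟨fun _ => Set.mem_univ _, fun _ => ?_⟩
    obtain ⟨y, hy, m, hm, rfl⟩ := hfr g
    exact ⟨y, hy, m, by rw [hM]; exact hm, rfl⟩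

/-- a pair as in `HypN`: `(G, ⟨C⟩, C)` is in `SC p` -/
theorem sc_hypn {G : Type} [Group G] [Finite G] (C : Set G) (hcc : ∀ x ∈ C, ∀ g : G, g * x * g⁻¹ ∈ C) {p : ℕ}
    (hp : p.Prime) (N : Subgroup G) [N.Normal] (h : HypN p C N) : SC p (Subgroup.closure C) C := by
  obtain ⟨M, hM⟩ := hypn_compl C hcc hp N h
  obtain ⟨k, hk⟩ := h.hyp
  obtain ⟨T, hT⟩ : ∃ T : Subgroup G, T = Subgroup.closure C := ⟨_, rfl⟩
  have hTn : T.Normal := by rw [hT]; exact H51.K3.clo_normal C hcc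
  rw [← hT] at hM hk ⊢
  obtain ⟨R, hR⟩ : ∃ R : Subgroup G, R = T ⊓ N := ⟨_, rfl⟩
  have hRn : R.Normal := by rw [hR]; infer_instance
  rw [← hR] at hM
  have hRT : R ≤ T := by rw [hR]; exact inf_le_left
  have hRN : R ≤ N := by rw [hR]; exact inf_le_right
  have hcR : Nat.card R ∣ Nat.card N := Subgroup.card_dvd_of_le hRN
  have hMR : M.IsComplement' R := hM.symm
  have key : ∀ (i : ℕ) (x : G), x ∈ T → ((x : G ⧸ N) ∈ Subgroup.upperCentralSeries (G ⧸ N) i) →
      ((x : G ⧸ R) ∈ Subgroup.upperCentralSeries (G ⧸ R) i) := by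
    intro i
    induction i with
    | zero =>
      intro x hx hxi
      rw [Subgroup.upperCentralSeries_zero, Subgroup.mem_bot] at hxi ⊢
      refine (QuotientGroup.eq_one_iff _).2 ?_
      rw [hR]
      exact ⟨hx, (QuotientGroup.eq_one_iff _).1 hxi⟩
    | succ i ih =>
      intro x hx hxi
      rw [Subgroup.mem_upperCentralSeries_succ_iff] at hxi ⊢
      intro y
      obtain ⟨w, rfl⟩ := QuotientGroup.mk_surjective y
      have h2 := ih ⁅x, w⁆ ?_ (hxi (w : G ⧸ N))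
      · exact h2
      · rw [commutatorElement_def]
        have h3 : x * w * x⁻¹ * w⁻¹ = x * (w * x⁻¹ * w⁻¹) := by group
        rw [h3]
        exact T.mul_mem hx (hTn.conj_mem _ (T.inv_mem hx) w)
  have hmap : T.map (QuotientGroup.mk' R) = Subgroup.closure (QuotientGroup.mk' R '' C) := by
    rw [hT, MonoidHom.map_closure]
  have hmk : T.map (QuotientGroup.mk' R) ≤ Subgroup.upperCentralSeries (G ⧸ R) k := by
    rintro _ ⟨x, hx, rfl⟩
    exact key k x hx (hk x hx)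
  refine SC.ustep _ C (QuotientGroup.mk' R) ⟨QuotientGroup.mk'_surjective R,
    ⟨M.subtype.comp hMR.QuotientMulEquiv.toMonoidHom, fun x => ?_⟩, ?_, ?_⟩ ?_ (SC.base _ _ k hmk ?_)
  · exact hMR.QuotientMulEquiv.symm_apply_apply x
  · rw [QuotientGroup.ker_mk']
    exact ⟨⟨fun a b => Subtype.ext (h.comm a (hRN a.2) b (hRN b.2))⟩⟩
  · rw [QuotientGroup.ker_mk']
    have h1 : (Subgroup.centralizer (R : Set G)).index ∣ (Subgroup.centralizer (N : Set G)).index :=
      Subgroup.index_dvd_of_le (Subgroup.centralizer_le hRN)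
    exact (h.coprime.coprime_dvd_left hcR).coprime_dvd_right (Nat.mul_dvd_mul_left p h1)
  · rw [QuotientGroup.ker_mk']
    exact hRT
  · rw [hmap]
    refine H51.K3.tz_pgroupc _ k ?_ hp ?_
    · rw [← hmap]
      exact hmk
    · rintro _ ⟨x, hx, rfl⟩
      rw [← map_pow, h.pow x hx, map_one]

end H51.K4
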