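import Pool.Agent.H51.K4.Scn
import Pool.Agent.H51.K3.Wr

/-!
# [H51 K4 WR] wreath products `G = G₁ ≀ H`, `H` arbitrary and transitive

`wr_part`, `wr_lst`: from `H51.K3`. `low_wrc`: the lower bound from the elements which act as an element of `C₁` on one block and trivially
on the others.
-/

set_option autoImplicit false

open scoped NumberField
open scoped Classical commutatorElement

noncomputable section

namespace H51.K4

open H38.ML.Spec H88.LB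

/-- `LC p` for the elements of a wreath product in one factor, from `SC p` -/
def WLC : Prop :=
  ∀ {p m k n : ℕ} (_ : 2 ≤ m) (_ : 0 < k) (e : Fin m × Fin k ≃ Fin n)
    (G₁ : Subgroup (Equiv.Perm (Fin m)))
    (H : Subgroup (Equiv.Perm (Fin k))) (_ : MulAction.IsPretransitive H (Fin k))
    (G : Subgroup (Equiv.Perm (Fin n))) (_ : IsWreath e G₁ H G) (C₁ : Set G₁) (_ : Part G₁ C₁)
    (_ : SC p (Subgroup.closure C₁) C₁), LC p (wrC e G₁ C₁ G)

variable {m k n : ℕ}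

theorem wr_part (hm : 2 ≤ m) (hk : 0 < k) (e : Fin m × Fin k ≃ Fin n)
    (G₁ : Subgroup (Equiv.Perm (Fin m))) (hG₁ : MulAction.IsPretransitive G₁ (Fin m))
    (H : Subgroup (Equiv.Perm (Fin k)))
    (G : Subgroup (Equiv.Perm (Fin n))) (hG : IsWreath e G₁ H G) (C₁ : Set G₁) (hC₁ : Part G₁ C₁) :
    Part G (wrC e G₁ C₁ G) :=
  k4_part (H51.K3.wr_part hm hk e G₁ hG₁ H G hG C₁ (k3_part hC₁))

theorem wr_lst (hm : 2 ≤ m) (hk : 0 < k) (e : Fin m × Fin k ≃ Fin n)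
    (G₁ : Subgroup (Equiv.Perm (Fin m))) (hG₁ : MulAction.IsPretransitive G₁ (Fin m))
    (H : Subgroup (Equiv.Perm (Fin k)))
    (G : Subgroup (Equiv.Perm (Fin n))) (hG : IsWreath e G₁ H G) :
    wrC e G₁ (Lst G₁) G = Lst G :=
  H51.K3.wr_lst hm hk e G₁ hG₁ H G hG

theorem low_wrc (hlc : LCB) (hw : WLC) (hm : 2 ≤ m) (hk : 0 < k) (e : Fin m × Fin k ≃ Fin n)
    (G₁ : Subgroup (Equiv.Perm (Fin m))) (hG₁ : MulAction.IsPretransitive G₁ (Fin m))
    (H : Subgroup (Equiv.Perm (Fin k))) (hH : MulAction.IsPretransitive H (Fin k))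
    (G : Subgroup (Equiv.Perm (Fin n))) (hG : IsWreath e G₁ H G) (C₁ : Set G₁) (hC₁ : Part G₁ C₁)
    (h : (∃ j : ℕ, Subgroup.closure C₁ ≤ Subgroup.upperCentralSeries G₁ j) ∨
      ∃ p : ℕ, p.Prime ∧ ((∃ (N : Subgroup G₁) (_ : N.Normal), HypN p C₁ N) ∨
        (∀ h ∈ C₁, h ^ p = 1) ∧ SC p (Subgroup.closure C₁) C₁)) :
    LowC G (wrC e G₁ C₁ G) := by
  obtain ⟨p, hp, hL, hS⟩ : ∃ p : ℕ, p.Prime ∧ (∀ h ∈ C₁, h ^ p = 1) ∧ SC p (Subgroup.closure C₁) C₁ := by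
    rcases h with ⟨j, hj⟩ | ⟨p, hp, ⟨N, hN, h⟩ | h⟩
    · obtain ⟨x, hx⟩ := hC₁.nonempty
      have hp := H51.K3.part_prime (k3_part hC₁) x hx
      have hL : ∀ y ∈ C₁, y ^ orderOf x = 1 := by
        intro y hy
        rw [H51.K3.trgzc hm G₁ hG₁ C₁ (k3_part hC₁) j hj x y hx hy]
        exact pow_orderOf_eq_one y
      exact ⟨orderOf x, hp, hL, SC.base _ _ j hj (H51.K3.tz_pgroupc C₁ j hj hp hL)⟩
    · exact ⟨p, hp, h.pow, sc_hypn C₁ hC₁.conj hp N h⟩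
    · exact ⟨p, hp, h⟩
  have hn : 2 ≤ n := by
    have h1 : Fintype.card (Fin m × Fin k) = Fintype.card (Fin n) := Fintype.card_congr e
    simp only [Fintype.card_prod, Fintype.card_fin] at h1
    rw [← h1]
    exact le_trans hm (Nat.le_mul_of_pos_right _ hk)
  refine low_mcc hlc hn G (wr_trans e G₁ hG₁ H hH G hG) _ (wr_part hm hk e G₁ hG₁ H G hG C₁ hC₁)
    (MC.loc _ p hp ?_ (hw hm hk e G₁ H hH G hG C₁ hC₁ hS))
  rintro σ ⟨j, g, hg, hs⟩
  have h5 : (g : Equiv.Perm (Fin m)) ^ p = 1 := congrArg Subtype.val (hL g hg)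
  have h6 : (σ : Equiv.Perm (Fin n)) = blk e j g := by
    refine Equiv.ext fun y => ?_
    obtain ⟨⟨x, i⟩, rfl⟩ := e.surjective y
    rw [hs, blk_ap]
  apply Subtype.ext
  show (σ : Equiv.Perm (Fin n)) ^ p = 1
  rw [h6, ← map_pow, h5, map_one]

end H51.K4
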